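import Pool.Agent.KS6_82.SM.D

/-!
# Every group with a nonabelian free subgroup is the `J`-class of `1` of a non-sofic monoid
-/

universe u

namespace Pool.Agent.Results.MP_6d1796_al.EveryFreeContainingGroup

open KS82.SM

/-- Sofic monoids: for every finite `K ⊆ M` and every `ε > 0` there are a finite nonempty set `X`
and a map `M × X → X`, `(m, x) ↦ f m x`, such that `1` acts as the identity, for all `g, h ∈ K` at
least `(1 - ε)|X|` points `x` satisfy `g(hx) = (gh)x`, and for all `g ≠ h` in `K` at most `ε|X|`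
points `x` satisfy `gx = hx`. -/
def Sofic (M : Type u) [Monoid M] : Prop :=
  ∀ (K : Finset M) (ε : ℝ), 0 < ε →
    ∃ (X : Type) (_ : Finite X) (_ : Nonempty X) (f : M → X → X),
      (∀ x, f 1 x = x) ∧
      (∀ g ∈ K, ∀ h ∈ K, (1 - ε) * Nat.card X ≤ Nat.card {x : X // f g (f h x) = f (g * h) x}) ∧
      (∀ g ∈ K, ∀ h ∈ K, g ≠ h → (Nat.card {x : X // f g x = f h x} : ℝ) ≤ ε * Nat.card X)

/-- The `J`-class of the identity: all `m` with `MmM = M`. -/
def JOne (M : Type u) [Monoid M] : Set M := {m | ∀ x : M, ∃ a b : M, a * m * b = x}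

lemma card_add {X : Type} [Finite X] (P : X → Prop) :
    (Nat.card {x // P x} : ℝ) + Nat.card {x // ¬ P x} = Nat.card X := by
  classical
  have h := Nat.card_congr (Equiv.sumCompl P)
  rw [Nat.card_sum] at h
  exact_mod_cast h

lemma sofic_iff {M : Type u} [Monoid M] : Sofic M ↔ Q281.SM.IsSofic M := by
  constructor
  · intro h K ε hε
    obtain ⟨X, iF, iN, f, h1, h2, h3⟩ := h K ε hε
    refine ⟨X, iF, iN, f, h1, h2, fun s hs t ht hst => ?_⟩
    have h4 := h3 s hs t ht hst
    have h5 := card_add (fun x => f s x = f t x)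
    linarith
  · intro h K ε hε
    obtain ⟨X, iF, iN, f, h1, h2, h3⟩ := h K ε hε
    refine ⟨X, iF, iN, f, h1, h2, fun s hs t ht hst => ?_⟩
    have h4 := h3 s hs t ht hst
    have h5 := card_add (fun x => f s x = f t x)
    linarith

lemma zr {G : Type u} [Group G] {H : Subgroup G} {P : Submonoid (PH H)} :
    Zr (Nz : NMon H P) where
  l a := rfl
  r a := by
    change nmul a Car.z = Car.z
    cases a <;> rfl
  n h := by
    obtain ⟨a, ha⟩ := nIsUnit.1 h
    exact absurd ha (by intro h; cases h)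
  i a b h := by
    obtain ⟨c, hc⟩ := nIsUnit.1 h
    change nmul a b = Car.g c at hc
    rw [nIsUnit, nIsUnit]
    cases a <;> cases b <;> first | exact ⟨⟨_, rfl⟩, ⟨_, rfl⟩⟩ | (exfalso; simp [nmul] at hc)

lemma ncases {G : Type u} [Group G] {H : Subgroup G} {P : Submonoid (PH H)} (n : NMon H P) :
    (∃ a, n = Ng a) ∨ (∃ x, n = Ns x) ∨ (∃ p, n = Nt p) ∨ n = Nz := by
  rcases n with a | c | p | _
  · exact Or.inl ⟨a, rfl⟩
  · obtain ⟨x, rfl⟩ := mkc_surj c
    exact Or.inr (Or.inl ⟨x, rfl⟩)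
  · exact Or.inr (Or.inr (Or.inl ⟨p, rfl⟩))
  · exact Or.inr (Or.inr (Or.inr rfl))

lemma orbits {G : Type u} [Group G] {H : Subgroup G} {P : Submonoid (PH H)}
    (hz : Zr (Nz : NMon H P)) (m : Db hz) (hm : ¬ IsUnit m) :
    (∃ v : (Db hz)ˣ, m = e1 hz (Ns 1) * v) ∨ ∀ v : (Db hz)ˣ, m * v = m := by
  rcases mem_cases hz m with ⟨n, rfl⟩ | ⟨n, rfl⟩
  · have key : (∀ a : G, n * Ng a = n) → ∀ v : (Db hz)ˣ, e1 hz n * v = e1 hz n := by
      intro h v
      have h1 : IsUnit ((v : Db hz).1.1) := (isUnit_db hz _).1 v.isUnit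
      have h2 := of_isUnit_fst hz _ h1
      obtain ⟨a, ha⟩ := nIsUnit.1 h1
      have ha' : (v : Db hz).1.1 = Ng a := ha
      rw [← h2, ha', ← map_mul, h a]
    rcases ncases n with ⟨a, rfl⟩ | ⟨x, rfl⟩ | ⟨p, rfl⟩ | rfl
    · exact absurd ((nIsUnit.2 ⟨a, rfl⟩ : IsUnit (Ng a : NMon H P)).map (e1 hz)) hm
    · left
      refine ⟨Units.map (e1 hz) (nUnits H P x), ?_⟩
      change e1 hz (Ns x) = e1 hz (Ns 1) * e1 hz (Ng x)
      rw [← map_mul, Ns_Ng, one_mul]
    · right; exact key (fun a => rfl)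
    · right; exact key (fun a => rfl)
  · right
    intro v
    have hn : ¬ IsUnit n := fun h => hm ((h.map (e2 hz)).unop)
    have e : (e2 hz n).unop.1 = ((Nz : NMon H P), MulOpposite.op n) := by
      simp only [e2, e2f, MonoidHom.coe_mk, OneHom.coe_mk, MulOpposite.unop_op]
      rw [dif_neg hn]
    have h1 : IsUnit ((v : Db hz).1.2.unop) :=
      (v.isUnit.map ((MonoidHom.snd (NMon H P) (NMon H P)ᵐᵒᵖ).comp (Db hz).subtype)).unop
    obtain ⟨a, ha⟩ := nIsUnit.1 h1
    apply Subtype.ext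
    change (e2 hz n).unop.1 * (v : Db hz).1 = _
    rw [e]
    refine Prod.ext rfl ?_
    change MulOpposite.op ((v : Db hz).1.2.unop * n) = MulOpposite.op n
    have ha' : (v : Db hz).1.2.unop = Ng a := ha
    rw [ha']
    rcases ncases n with ⟨b, rfl⟩ | ⟨x, rfl⟩ | ⟨p, rfl⟩ | rfl
    · exact absurd (nIsUnit.2 ⟨b, rfl⟩) hn
    · rfl
    · rfl
    · rfl

/-- (1) Let `G` be a group that contains a nonabelian free subgroup.  There is a monoid `M` such
that the `J`-class of `1` of `M` is the group of units of `M`, this group is isomorphic to `G`,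
neither `M` nor the opposite monoid is sofic, `M` is generated by its units and at most sixteen
further elements, `M` is finitely generated if `G` is, and right multiplication by the units fixes
every element outside the group of units except those of a single orbit.
(2) The free group of rank two is sofic. -/
theorem result :
    (∀ (G : Type u) [Group G], (∃ f : FreeGroup (Fin 2) →* G, Function.Injective f) →
      ∃ (M : Type u) (_ : Monoid M), JOne M = {m | IsUnit m} ∧ Nonempty (Mˣ ≃* G) ∧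
        ¬ Sofic M ∧ ¬ Sofic Mᵐᵒᵖ ∧
        (∃ S : Finset M, S.card ≤ 16 ∧ Submonoid.closure ({m | IsUnit m} ∪ (S : Set M)) = ⊤) ∧
        (Group.FG G → Monoid.FG M) ∧
        ∃ m₀ : M, ∀ m : M, ¬ IsUnit m → (∃ v : Mˣ, m = m₀ * v) ∨ ∀ v : Mˣ, m * v = m) ∧
    Sofic (FreeGroup (Fin 2)) := by
  classical
  refine ⟨fun G _ hG => ?_, sofic_iff.2 (sofic_free (Fin 2))⟩
  obtain ⟨f, hf⟩ := hG
  set J : FreeGroup ℕ →* G := f.comp emb with hJdef
  have hJ : Function.Injective J := hf.comp emb_injective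
  have hns := not_sofic_J hJ
  set N := NMon (HH J) (PP J) with hN
  let q : Fin 6 → PP J := fun k => ⟨⟨J (sx k), sx_PH J k⟩, Submonoid.subset_closure ⟨k, rfl⟩⟩
  have hq : Submonoid.closure (Set.range q) = ⊤ := by
    have h1 := Submonoid.closure_closure_coe_preimage
      (s := Set.range fun k : Fin 6 => (⟨J (sx k), sx_PH J k⟩ : PH (HH J)))
    have h2 : Set.range q = Subtype.val ⁻¹' (Set.range fun k : Fin 6 =>
        (⟨J (sx k), sx_PH J k⟩ : PH (HH J))) := by
      ext x
      constructor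
      · rintro ⟨k, rfl⟩; exact ⟨k, rfl⟩
      · rintro ⟨k, hk⟩; exact ⟨k, Subtype.ext hk⟩
    rw [h2]
    exact h1
  let S : Finset N := insert (Ns 1) (insert (Nt 1) (Finset.univ.image fun k => Nt (q k)))
  have hS8 : S.card ≤ 8 := by
    refine (Finset.card_insert_le _ _).trans ?_
    have h1 := Finset.card_insert_le (Nt 1 : N) (Finset.univ.image fun k => Nt (q k))
    have h2 : (Finset.univ.image fun k => (Nt (q k) : N)).card ≤ 6 :=
      Finset.card_image_le.trans (by simp)
    omega
  have hScl : Submonoid.closure ({m : N | IsUnit m} ∪ (S : Set N)) = ⊤ := by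
    have h1 := closure_eq (H := HH J) (P := PP J) (Set.range q) hq
    have h2 : (S : Set N) = insert (Ns 1) (insert (Nt 1) (Nt '' Set.range q)) := by
      ext x
      simp [S]
    rw [h2]; exact h1
  have hz : Zr (Nz : N) := zr
  let S' : Finset (Db hz) := S.image (e1 hz) ∪ S.image (fun m => (e2 hz m).unop)
  have hS'16 : S'.card ≤ 16 := by
    have h1 := Finset.card_union_le (S.image (e1 hz)) (S.image (fun m => (e2 hz m).unop))
    have h2 : (S.image (e1 hz)).card ≤ S.card := Finset.card_image_le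
    have h3 : (S.image (fun m => (e2 hz m).unop)).card ≤ S.card := Finset.card_image_le
    exact h1.trans ((Nat.add_le_add h2 h3).trans (by omega))
  have hS'cl : Submonoid.closure ({m : Db hz | IsUnit m} ∪ (S' : Set (Db hz))) = ⊤ := by
    have h1 := closure_db hz (S : Set N) hScl
    have h2 : (S' : Set (Db hz)) = e1 hz '' (S : Set N) ∪ (fun m => (e2 hz m).unop) '' (S : Set N) := by
      simp [S']
    rw [h2]; exact h1
  let ev : (Db hz)ˣ ≃* G := (dUnits hz).symm.trans (nUnits (HH J) (PP J)).symm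
  refine ⟨Db hz, inferInstance, jOne_db hz, ⟨ev⟩, ?_, ?_, ⟨S', hS'16, hS'cl⟩, fun hfg => ?_,
    e1 hz (Ns 1), orbits hz⟩
  · rw [sofic_iff]
    exact fun h => hns (sofic_of_injective (e1 hz) (e1_inj hz) h)
  · rw [sofic_iff]
    exact fun h => hns (sofic_of_injective (e2 hz) (e2_inj hz) h)
  · have h1 : Group.FG (Db hz)ˣ :=
      Group.fg_of_surjective (f := ev.symm.toMonoidHom) ev.symm.surjective
    exact fg_of (S' : Set (Db hz)) S'.finite_toSet hS'cl h1

end Pool.Agent.Results.MP_6d1796_al.EveryFreeContainingGroup
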